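import Pool.Agent.H44.MS.Basics

/-!
# B2: the mean square of the middle part (board mcs, MP_232a1c_nt)
-/

set_option autoImplicit false

namespace Pool.Agent.H24.MS

open Finset Real Pool.Agent.H44.MS

theorem b2_QS_mono (z N : ℕ) {F G : ℕ → ℕ → ℕ → ℕ → ℝ} (h : ∀ g a b c, F g a b c ≤ G g a b c) :
    QS z N F ≤ QS z N G := by
  unfold QS
  refine Finset.sum_le_sum fun s₀ _ => Finset.sum_le_sum fun g _ => Finset.sum_le_sum fun a _ =>
    Finset.sum_le_sum fun b _ => Finset.sum_le_sum fun c _ => ?_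
  exact mul_le_mul_of_nonneg_left (h g a b c) (ic_nonneg _)

theorem b2_QS_add (z N : ℕ) (F G : ℕ → ℕ → ℕ → ℕ → ℝ) :
    QS z N (fun g a b c => F g a b c + G g a b c) = QS z N F + QS z N G := by
  unfold QS
  simp only [mul_add, Finset.sum_add_distrib]

theorem b2_QS_swap (z N : ℕ) (F : ℕ → ℕ → ℕ → ℕ → ℝ) :
    QS z N F = QS z N (fun g a b c => F g b a c) := by
  unfold QS
  refine Finset.sum_congr rfl fun s₀ _ => Finset.sum_congr rfl fun g _ => ?_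
  rw [Finset.sum_comm]
  refine Finset.sum_congr rfl fun a _ => Finset.sum_congr rfl fun b _ =>
    Finset.sum_congr rfl fun c _ => ?_
  congr 1
  refine ic_congr ?_
  have e : g * b * a * c = g * a * b * c := by ring
  rw [e]
  constructor
  · rintro ⟨h1, h2, h3, h4, h5, h6⟩
    exact ⟨h1, h2, h4, h3, h5, h6⟩
  · rintro ⟨h1, h2, h3, h4, h5, h6⟩
    exact ⟨h1, h2, h4, h3, h5, h6⟩

theorem b2_chi (a b : ℕ) : |chi a * chi b| ≤ 1 := by
  rw [abs_mul]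
  exact mul_le_one₀ (abs_chi_le a) (abs_nonneg _) (abs_chi_le b)

/-- the pointwise decomposition -/
theorem b2_point (p : Prop) (A₀ a b : ℕ) :
    ic (Nat.Coprime a b ∧ p) * (chi a * chi b) ≤
      ic (a ≤ A₀ ∧ b ≤ A₀ ∧ p) + ic (True ∧ A₀ < a ∧ p) * (chi a * chi b) +
      ic (a ≤ A₀ ∧ A₀ < b ∧ p) * (chi a * chi b) + ic (¬ Nat.Coprime a b) := by
  have hc := abs_le.1 (b2_chi a b)
  by_cases hp : p
  · by_cases hcop : Nat.Coprime a b
    · rw [ic_pos ⟨hcop, hp⟩, ic_neg (not_not.2 hcop)]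
      by_cases ha : a ≤ A₀
      · by_cases hb : b ≤ A₀
        · rw [ic_pos ⟨ha, hb, hp⟩, ic_neg (fun h => absurd h.2.1 (not_lt.2 ha)),
            ic_neg (fun h => absurd h.2.1 (not_lt.2 hb))]
          linarith [hc.2]
        · rw [ic_neg (fun h => hb h.2.1), ic_neg (fun h => absurd h.2.1 (not_lt.2 ha)),
            ic_pos ⟨ha, not_le.1 hb, hp⟩]
          linarith
      · rw [ic_neg (fun h => ha h.1), ic_pos ⟨trivial, not_le.1 ha, hp⟩, ic_neg (fun h => ha h.1)]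
        linarith
    · rw [ic_neg (fun h => hcop h.1), ic_pos hcop]
      by_cases ha : a ≤ A₀
      · by_cases hb : b ≤ A₀
        · rw [ic_pos ⟨ha, hb, hp⟩, ic_neg (fun h => absurd h.2.1 (not_lt.2 ha)),
            ic_neg (fun h => absurd h.2.1 (not_lt.2 hb))]
          linarith [hc.2]
        · rw [ic_neg (fun h => hb h.2.1), ic_neg (fun h => absurd h.2.1 (not_lt.2 ha)),
            ic_pos ⟨ha, not_le.1 hb, hp⟩]
          linarith [hc.1]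
      · rw [ic_neg (fun h => ha h.1), ic_pos ⟨trivial, not_le.1 ha, hp⟩, ic_neg (fun h => ha h.1)]
        linarith [hc.1]
  · rw [ic_neg (fun h => hp h.2), ic_neg (fun h => hp h.2.2), ic_neg (fun h => hp h.2.2),
      ic_neg (fun h => hp h.2.2)]
    have := ic_nonneg (¬ Nat.Coprime a b)
    linarith

theorem pf_B2 (B2a : T_B2a) (B2b : T_B2b) (B2c : T_B2c) (B2d : T_B2d) : T_B2 := by
  obtain ⟨C₁, hC₁, hb⟩ := B2b
  obtain ⟨C₂, hC₂, hc⟩ := B2c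
  refine ⟨C₁ + 2 * C₂ + 2, by positivity, ?_⟩
  intro z E N A₀ hz hA hAE hE hN
  have hzA : z ≤ A₀ := by
    refine le_trans ?_ hA
    calc z = z ^ 1 := (pow_one z).symm
      _ ≤ z ^ 24 := Nat.pow_le_pow_right (by omega) (by norm_num)
  have h8 : 8 ≤ A₀ := by
    have h1 : 2 ^ 24 ≤ z ^ 24 := Nat.pow_le_pow_left hz 24
    have h2 : (2 : ℕ) ^ 24 = 16777216 := by norm_num
    omega
  have hA₀E : A₀ ≤ E := by
    refine le_trans ?_ hAE
    calc A₀ = A₀ * 1 := (mul_one _).symm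
      _ ≤ A₀ * z := Nat.mul_le_mul_left _ (by omega)
  have hE0 : 0 < E := by omega
  have hEN : E ≤ N := by
    refine le_trans ?_ hE
    calc E = E ^ 1 := (pow_one E).symm
      _ ≤ E ^ 2 := Nat.pow_le_pow_right hE0 (by norm_num)
  have hAN : A₀ ≤ N := hA₀E.trans hEN
  have hN1 : 1 ≤ N := by omega
  rw [B2a z E N hz]
  have h1 : QS z N (fun g a b c => ic (Nat.Coprime a b ∧ E < g * a ∧ E < g * b ∧ E < b * c ∧
        E < a * c) * (chi a * chi b)) ≤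
      QS z N (fun g a b c => ic (a ≤ A₀ ∧ b ≤ A₀ ∧ E < g * a ∧ E < g * b ∧ E < b * c ∧
        E < a * c)) +
      QS z N (fun g a b c => ic (True ∧ A₀ < a ∧ E < g * a ∧ E < g * b ∧ E < b * c ∧
        E < a * c) * (chi a * chi b)) +
      QS z N (fun g a b c => ic (a ≤ A₀ ∧ A₀ < b ∧ E < g * a ∧ E < g * b ∧ E < b * c ∧
        E < a * c) * (chi a * chi b)) +
      QS z N (fun _ a b _ => ic (¬ Nat.Coprime a b)) := by
    rw [← b2_QS_add, ← b2_QS_add, ← b2_QS_add]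
    refine b2_QS_mono z N fun g a b c => ?_
    exact b2_point _ A₀ a b
  have h2 := hb z E N A₀ hz h8 hAE hE hN hzA
  have h3 := hc z E N A₀ (fun _ => True) hz hA hAN
  have h4 := hc z E N A₀ (fun b => b ≤ A₀) hz hA hAN
  have h5 : QS z N (fun g a b c => ic (a ≤ A₀ ∧ A₀ < b ∧ E < g * a ∧ E < g * b ∧ E < b * c ∧
        E < a * c) * (chi a * chi b)) =
      QS z N (fun g a b c => ic (b ≤ A₀ ∧ A₀ < a ∧ E < g * a ∧ E < g * b ∧ E < b * c ∧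
        E < a * c) * (chi a * chi b)) := by
    rw [b2_QS_swap]
    congr 1
    funext g a b c
    rw [mul_comm (chi b) (chi a)]
    congr 1
    refine ic_congr ?_
    tauto
  have h6 := B2d z N (by omega)
  rw [h5] at h1
  have h3' := (abs_le.1 h3).2
  have h4' := (abs_le.1 h4).2
  obtain ⟨Q₁, hQ₁⟩ : ∃ Q, Q = QS z N (fun g a b c => ic (a ≤ A₀ ∧ b ≤ A₀ ∧ E < g * a ∧
    E < g * b ∧ E < b * c ∧ E < a * c)) := ⟨_, rfl⟩
  obtain ⟨Q₂, hQ₂⟩ : ∃ Q, Q = QS z N (fun g a b c => ic (True ∧ A₀ < a ∧ E < g * a ∧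
    E < g * b ∧ E < b * c ∧ E < a * c) * (chi a * chi b)) := ⟨_, rfl⟩
  obtain ⟨Q₃, hQ₃⟩ : ∃ Q, Q = QS z N (fun g a b c => ic (b ≤ A₀ ∧ A₀ < a ∧ E < g * a ∧
    E < g * b ∧ E < b * c ∧ E < a * c) * (chi a * chi b)) := ⟨_, rfl⟩
  obtain ⟨Q₄, hQ₄⟩ : ∃ Q, Q = QS z N (fun _ a b _ => ic (¬ Nat.Coprime a b)) := ⟨_, rfl⟩
  rw [← hQ₁] at h2 h1
  rw [← hQ₂] at h3' h1
  rw [← hQ₃] at h4' h1
  rw [← hQ₄] at h6 h1
  refine h1.trans ?_
  -- positivity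
  have hzr : (2 : ℝ) ≤ z := by exact_mod_cast hz
  have hlz : 0 < Real.log z := Real.log_pos (by linarith)
  have hlA : 0 ≤ Real.log A₀ := Real.log_natCast_nonneg A₀
  have hlN : 0 ≤ Real.log N := Real.log_natCast_nonneg N
  have hNr : (1 : ℝ) ≤ N := by exact_mod_cast hN1
  have hX : 0 ≤ Real.log ((N : ℝ) * A₀ ^ 2 / E ^ 2) := by
    refine Real.log_nonneg ?_
    have hE' : (0 : ℝ) < (E : ℝ) ^ 2 := by positivity
    rw [le_div_iff₀ hE', one_mul]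
    have h7 : (E : ℝ) ^ 2 ≤ N := by exact_mod_cast hE
    have h8' : (1 : ℝ) ≤ (A₀ : ℝ) ^ 2 := by
      have : (1 : ℝ) ≤ A₀ := by exact_mod_cast (by omega : 1 ≤ A₀)
      nlinarith
    nlinarith
  obtain ⟨B, hB⟩ : ∃ B : ℝ, B = N / √(Real.log z) := ⟨_, rfl⟩
  have hB0 : 0 ≤ B := by rw [hB]; positivity
  obtain ⟨X, hXd⟩ : ∃ X : ℝ, X = (Real.log A₀ / Real.log z) ^ 2 *
        (1 + Real.log ((N : ℝ) * A₀ ^ 2 / E ^ 2) / Real.log z) := ⟨_, rfl⟩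
  have hX0 : 0 ≤ X := by rw [hXd]; positivity
  obtain ⟨P, hP⟩ : ∃ P : ℝ, P = (2 : ℝ) ^ (-(Real.log A₀ / (10 * Real.log z))) := ⟨_, rfl⟩
  have hP0 : 0 ≤ P := by rw [hP]; positivity
  obtain ⟨L, hL⟩ : ∃ L : ℝ, L = (Real.log N / Real.log z) ^ 3 := ⟨_, rfl⟩
  have hL0 : 0 ≤ L := by rw [hL]; positivity
  obtain ⟨M, hM⟩ : ∃ M : ℝ, M = (1 + Real.log N) ^ 4 := ⟨_, rfl⟩
  have hM0 : 0 ≤ M := by rw [hM]; positivity
  obtain ⟨W, hW⟩ : ∃ W : ℝ, W = (A₀ : ℝ) ^ (-(1 / 4 : ℝ)) := ⟨_, rfl⟩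
  have hW0 : 0 ≤ W := by rw [hW]; positivity
  have g1 : Q₁ ≤ C₁ * (B * X) := by
    refine h2.trans (le_of_eq ?_)
    rw [← hXd, hB]
    ring
  have g2 : Q₂ ≤ C₂ * (B * (L * P) + N * M * W) := by
    refine h3'.trans (le_of_eq ?_)
    rw [← hP, ← hL, ← hM, ← hW, hB]
    ring
  have g3 : Q₃ ≤ C₂ * (B * (L * P) + N * M * W) := by
    refine h4'.trans (le_of_eq ?_)
    rw [← hP, ← hL, ← hM, ← hW, hB]
    ring
  have g4 : Q₄ ≤ 2 * (N * M * (1 / z)) := by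
    refine h6.trans (le_of_eq ?_)
    rw [← hM]
    ring
  have g5 : (C₁ + 2 * C₂ + 2) * N / √(Real.log z) * ((Real.log A₀ / Real.log z) ^ 2 *
        (1 + Real.log ((N : ℝ) * A₀ ^ 2 / E ^ 2) / Real.log z) +
        (Real.log N / Real.log z) ^ 3 * (2 : ℝ) ^ (-(Real.log A₀ / (10 * Real.log z)))) +
      (C₁ + 2 * C₂ + 2) * N * (1 + Real.log N) ^ 4 * (1 / z + (A₀ : ℝ) ^ (-(1 / 4 : ℝ))) =
      (C₁ + 2 * C₂ + 2) * (B * X + B * (L * P) + N * M * (1 / z) + N * M * W) := by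
    rw [← hP, ← hL, ← hM, ← hW, ← hXd, hB]
    ring
  rw [g5]
  have p1 : 0 ≤ B * X := mul_nonneg hB0 hX0
  have p2 : 0 ≤ B * (L * P) := mul_nonneg hB0 (mul_nonneg hL0 hP0)
  have p3 : 0 ≤ (N : ℝ) * M * (1 / z) := by positivity
  have p4 : 0 ≤ (N : ℝ) * M * W := by positivity
  have q1 : 0 ≤ C₁ * (B * (L * P)) := mul_nonneg hC₁.le p2
  have q2 : 0 ≤ C₁ * (N * M * (1 / z)) := mul_nonneg hC₁.le p3
  have q3 : 0 ≤ C₁ * (N * M * W) := mul_nonneg hC₁.le p4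
  have q4 : 0 ≤ C₂ * (B * X) := mul_nonneg hC₂.le p1
  have q5 : 0 ≤ C₂ * (N * M * (1 / z)) := mul_nonneg hC₂.le p3
  have e1 : (C₁ + 2 * C₂ + 2) * (B * X + B * (L * P) + N * M * (1 / z) + N * M * W) =
    C₁ * (B * X) + C₁ * (B * (L * P)) + C₁ * (N * M * (1 / z)) + C₁ * (N * M * W) +
    2 * (C₂ * (B * X)) + 2 * (C₂ * (B * (L * P) + N * M * W)) + 2 * (C₂ * (N * M * (1 / z))) +
    2 * (B * X) + 2 * (B * (L * P)) + 2 * (N * M * (1 / z)) + 2 * (N * M * W) := by ring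
  rw [e1]
  linarith

end Pool.Agent.H24.MS
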